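import Mathlib
import Pool.Agent.Q285.Moebius

set_option autoImplicit false

/-! The Moebius-nonzero subcomplex of a permutation interval need not be pure. -/

namespace Pool.Agent.Results.MP_923311_co.NonzeroNotPure

open Pool.Agent.Q285.PermEnum Pool.Agent.Q285.Contain Pool.Agent.Q285.Moebius

/-- `t` lies in the open interval `(s, p)` -/
def InOpen (s p t : PP) : Prop := Le s t ∧ Le t p ∧ t ≠ s ∧ t ≠ p

/-- `F` is a face of the complex of chains of elements `t` of the open interval with `μ(s, t) ≠ 0` -/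
def IsFace (s p : PP) (F : Finset PP) : Prop :=
  (∀ t ∈ F, InOpen s p t ∧ mu s t.1 t.2 ≠ 0) ∧ ∀ a ∈ F, ∀ b ∈ F, Le a b ∨ Le b a

/-- `F` is a maximal face -/
def IsFacet (s p : PP) (F : Finset PP) : Prop :=
  IsFace s p F ∧ ∀ G, IsFace s p G → F ⊆ G → F = G

/-- the complex is pure -/
def Pure (s p : PP) : Prop := ∀ F G, IsFacet s p F → IsFacet s p G → F.card = G.card

/-- the permutation 132 -/
def s1 : PP := ⟨3, ⟨![0, 2, 1], ![0, 2, 1], by decide, by decide⟩⟩

/-- the permutation 354162 -/
def p1 : PP := ⟨6, ⟨![2, 4, 3, 0, 5, 1], ![3, 5, 0, 2, 1, 4], by decide, by decide⟩⟩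

/-- the permutation 3142 -/
def a1 : PP := ⟨4, ⟨![2, 0, 3, 1], ![1, 3, 0, 2], by decide, by decide⟩⟩

/-- the permutation 1324 -/
def b1 : PP := ⟨4, ⟨![0, 2, 1, 3], ![0, 2, 1, 3], by decide, by decide⟩⟩

/-- the permutation 24315 -/
def c1 : PP := ⟨5, ⟨![1, 3, 2, 0, 4], ![3, 0, 2, 1, 4], by decide, by decide⟩⟩

/-- values of the Moebius function -/
def V : List ℕ → ℤ := fun w =>
  if w = [0, 2, 1] then 1 else if w = [0, 2, 1, 3] then -1 else if w = [1, 3, 2, 0] then -1
  else if w = [2, 0, 3, 1] then -1 else if w = [1, 3, 2, 0, 4] then 1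
  else if w = [1, 3, 2, 4, 0] then 1 else 0

lemma wd_s1 : wd s1 = [0, 2, 1] := by decide
lemma wd_p1 : wd p1 = [2, 4, 3, 0, 5, 1] := by decide
lemma wd_a1 : wd a1 = [2, 0, 3, 1] := by decide
lemma wd_b1 : wd b1 = [0, 2, 1, 3] := by decide
lemma wd_c1 : wd c1 = [1, 3, 2, 0, 4] := by decide

set_option maxRecDepth 100000 in
lemma check1 : ∀ m ∈ List.range (6 + 1), ∀ w ∈ (List.range m).permutations',
    cont [2, 4, 3, 0, 5, 1] w = true → recW [0, 2, 1] w V = V w := by
  decide +kernel

set_option maxRecDepth 100000 in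
lemma check2 : ∀ m ∈ List.range (6 + 1), ∀ w ∈ (List.range m).permutations',
    cont [2, 4, 3, 0, 5, 1] w = true → V w ≠ 0 → w ≠ [0, 2, 1] →
    w ∈ [[2, 0, 3, 1], [0, 2, 1, 3], [1, 3, 2, 0], [1, 3, 2, 0, 4], [1, 3, 2, 4, 0]] := by
  decide +kernel

lemma mu_s1 (t : PP) (ht : Le t p1) : mu s1 t.1 t.2 = V (wd t) := by
  refine mu_eq s1 p1 V ?_ t.1 t.2 ht
  rw [wd_s1, wd_p1]
  exact check1

lemma zero_mem (t : PP) (ht : InOpen s1 p1 t) (h0 : mu s1 t.1 t.2 ≠ 0) :
    wd t ∈ [[2, 0, 3, 1], [0, 2, 1, 3], [1, 3, 2, 0], [1, 3, 2, 0, 4], [1, 3, 2, 4, 0]] := by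
  obtain ⟨h1, h2, h3, h4⟩ := ht
  rw [mu_s1 t h2] at h0
  have h2' := h2
  rw [le_iff, wd_p1] at h2'
  refine check2 t.1 (List.mem_range.2 ?_) (wd t) (List.mem_permutations'.2 (word_perm t.2))
    h2' h0 ?_
  · have := h2.length_le
    exact Nat.lt_succ_of_le this
  · intro h
    exact h3 (wd_inj (h.trans wd_s1.symm))

lemma in_a1 : InOpen s1 p1 a1 ∧ mu s1 a1.1 a1.2 ≠ 0 := by
  have h : Le a1 p1 := by rw [le_iff, wd_a1, wd_p1]; decide +kernel
  refine ⟨⟨?_, h, ?_, ?_⟩, ?_⟩
  · rw [le_iff, wd_a1, wd_s1]; decide +kernel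
  · intro h; have := congrArg Sigma.fst h; revert this; decide
  · intro h; have := congrArg Sigma.fst h; revert this; decide
  · rw [mu_s1 a1 h, wd_a1]; decide

lemma in_b1 : InOpen s1 p1 b1 ∧ mu s1 b1.1 b1.2 ≠ 0 := by
  have h : Le b1 p1 := by rw [le_iff, wd_b1, wd_p1]; decide +kernel
  refine ⟨⟨?_, h, ?_, ?_⟩, ?_⟩
  · rw [le_iff, wd_b1, wd_s1]; decide +kernel
  · intro h; have := congrArg Sigma.fst h; revert this; decide
  · intro h; have := congrArg Sigma.fst h; revert this; decide
  · rw [mu_s1 b1 h, wd_b1]; decide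

lemma in_c1 : InOpen s1 p1 c1 ∧ mu s1 c1.1 c1.2 ≠ 0 := by
  have h : Le c1 p1 := by rw [le_iff, wd_c1, wd_p1]; decide +kernel
  refine ⟨⟨?_, h, ?_, ?_⟩, ?_⟩
  · rw [le_iff, wd_c1, wd_s1]; decide +kernel
  · intro h; have := congrArg Sigma.fst h; revert this; decide
  · intro h; have := congrArg Sigma.fst h; revert this; decide
  · rw [mu_s1 c1 h, wd_c1]; decide

lemma le_refl' (a : PP) : Le a a := ⟨id, strictMono_id, fun _ _ => Iff.rfl⟩

open Classical in
/-- There are permutations `s ≤ p` for which the subcomplex of the order complex of the open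
interval `(s, p)` induced by the elements `t` with `μ(s, t) ≠ 0` is not pure. -/
theorem result : ¬ ∀ s p : PP, Le s p → Pure s p := by
  intro H
  have hsp : Le s1 p1 := by rw [le_iff, wd_s1, wd_p1]; decide +kernel
  have hbc : Le b1 c1 := by rw [le_iff, wd_b1, wd_c1]; decide +kernel
  have hne : b1 ≠ c1 := by intro h; have := congrArg Sigma.fst h; revert this; decide
  have hF : IsFacet s1 p1 {a1} := by
    refine ⟨⟨?_, ?_⟩, ?_⟩
    · intro t ht; rw [Finset.mem_singleton] at ht; subst ht; exact in_a1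
    · intro a ha b hb
      rw [Finset.mem_singleton] at ha hb
      subst ha; subst hb; exact Or.inl (le_refl' _)
    · intro G hG hsub
      apply Finset.Subset.antisymm hsub
      intro t ht
      have hz := zero_mem t (hG.1 t ht).1 (hG.1 t ht).2
      have hc := hG.2 a1 (hsub (Finset.mem_singleton_self _)) t ht
      rw [le_iff, le_iff, wd_a1] at hc
      simp only [List.mem_cons, List.not_mem_nil, or_false] at hz
      rcases hz with h | h | h | h | h
      · rw [Finset.mem_singleton]; exact wd_inj (h.trans wd_a1.symm)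
      · rw [h] at hc; exact absurd hc (by decide +kernel)
      · rw [h] at hc; exact absurd hc (by decide +kernel)
      · rw [h] at hc; exact absurd hc (by decide +kernel)
      · rw [h] at hc; exact absurd hc (by decide +kernel)
  have hG : IsFacet s1 p1 {b1, c1} := by
    refine ⟨⟨?_, ?_⟩, ?_⟩
    · intro t ht
      rw [Finset.mem_insert, Finset.mem_singleton] at ht
      rcases ht with rfl | rfl
      · exact in_b1
      · exact in_c1
    · intro a ha b hb
      rw [Finset.mem_insert, Finset.mem_singleton] at ha hb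
      rcases ha with rfl | rfl <;> rcases hb with rfl | rfl
      · exact Or.inl (le_refl' _)
      · exact Or.inl hbc
      · exact Or.inr hbc
      · exact Or.inl (le_refl' _)
    · intro G hG hsub
      apply Finset.Subset.antisymm hsub
      intro t ht
      have hz := zero_mem t (hG.1 t ht).1 (hG.1 t ht).2
      have hc := hG.2 b1 (hsub (by simp)) t ht
      have hd := hG.2 c1 (hsub (by simp)) t ht
      rw [le_iff, le_iff, wd_b1] at hc
      rw [le_iff, le_iff, wd_c1] at hd
      simp only [List.mem_cons, List.not_mem_nil, or_false] at hz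
      rw [Finset.mem_insert, Finset.mem_singleton]
      rcases hz with h | h | h | h | h
      · rw [h] at hc; exact absurd hc (by decide +kernel)
      · left; exact wd_inj (h.trans wd_b1.symm)
      · rw [h] at hc; exact absurd hc (by decide +kernel)
      · right; exact wd_inj (h.trans wd_c1.symm)
      · rw [h] at hd; exact absurd hd (by decide +kernel)
  have := H s1 p1 hsp _ _ hF hG
  rw [Finset.card_singleton, Finset.card_pair hne] at this
  exact absurd this (by norm_num)

end Pool.Agent.Results.MP_923311_co.NonzeroNotPure
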